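import Pool.Agent.G02.Stmts

/-!
# Squad G02, row LC: local lemma
-/

set_option autoImplicit false

namespace Pool.Agent.G02.H18

theorem leg_one (l : ℕ) [Fact l.Prime] {x u v : ℤ} (hx : ¬ (l : ℤ) ∣ x) (hu : ¬ (l : ℤ) ∣ u)
    (h : (l : ℤ) ∣ x * u ^ 2 - v ^ 2) : legendreSym l x = 1 := by
  have hx0 : (x : ZMod l) ≠ 0 := fun h0 => hx ((ZMod.intCast_zmod_eq_zero_iff_dvd x l).1 h0)
  have hu0 : (u : ZMod l) ≠ 0 := fun h0 => hu ((ZMod.intCast_zmod_eq_zero_iff_dvd u l).1 h0)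
  rw [legendreSym.eq_one_iff l hx0]
  have h1 : ((x * u ^ 2 - v ^ 2 : ℤ) : ZMod l) = 0 := (ZMod.intCast_zmod_eq_zero_iff_dvd _ l).2 h
  push_cast at h1
  refine ⟨(v : ZMod l) / u, ?_⟩
  field_simp
  linear_combination h1

theorem lc : LcStmt := by
  intro a b d M e N B h l _ a₁ b₁ hl ha hb hna hnb
  have hp : l.Prime := Fact.out
  have hP : Prime (l : ℤ) := Nat.prime_iff_prime_int.1 hp
  have hl0 : (l : ℤ) ≠ 0 := hP.ne_zero
  have hcop : ∀ x : ℤ, ¬ (l : ℤ) ∣ x → IsCoprime (l : ℤ) x := fun x hx =>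
    (Prime.coprime_iff_not_dvd hP).2 hx
  have heq := h.eq
  have hbB := h.hb
  have hce : (l : ℤ) ∣ d * M → ¬ (l : ℤ) ∣ e := fun h1 h2 =>
    hP.not_isUnit (h.cop.isUnit_of_dvd' h1 h2)
  constructor
  · intro hd
    have h1 : (l : ℤ) ^ 3 ∣ B := by
      have h2 : (l : ℤ) ^ 3 ∣ d * B := ⟨b₁, by rw [← hbB, hb]⟩
      exact ((hcop d hd).pow_left).dvd_of_dvd_mul_left h2
    obtain ⟨B₁, hB₁⟩ := h1
    have hb₁ : b₁ = d * B₁ := by
      have h2 : (l : ℤ) ^ 3 * b₁ = (l : ℤ) ^ 3 * (d * B₁) := by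
        rw [← hb, hbB, hB₁]
        ring
      exact mul_left_cancel₀ (pow_ne_zero 3 hl0) h2
    have hnB : ¬ (l : ℤ) ∣ B₁ := fun h2 => hnb (hb₁ ▸ h2.mul_left d)
    by_cases hM : (l : ℤ) ∣ M
    · right
      obtain ⟨M₁, hM₁⟩ := hM
      have hne : ¬ (l : ℤ) ∣ e := hce ⟨d * M₁, by rw [hM₁]; ring⟩
      have h2 : N ^ 2 = (l : ℤ) ^ 3 * (l * d * M₁ ^ 4 + a₁ * M₁ ^ 2 * e ^ 2 + B₁ * e ^ 4) := by
        rw [heq, ha, hM₁, hB₁]
        ring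
      have h3 : (l : ℤ) ∣ N := hP.dvd_of_dvd_pow (n := 2) (by
        rw [h2]
        exact Dvd.intro _ (by ring : (l : ℤ) * ((l : ℤ) ^ 2 *
          (l * d * M₁ ^ 4 + a₁ * M₁ ^ 2 * e ^ 2 + B₁ * e ^ 4)) = _))
      obtain ⟨N₁, hN₁⟩ := h3
      have h4 : N₁ ^ 2 = (l : ℤ) * (l * d * M₁ ^ 4 + a₁ * M₁ ^ 2 * e ^ 2 + B₁ * e ^ 4) := by
        have h5 : (l : ℤ) ^ 2 * N₁ ^ 2 = (l : ℤ) ^ 2 *
            ((l : ℤ) * (l * d * M₁ ^ 4 + a₁ * M₁ ^ 2 * e ^ 2 + B₁ * e ^ 4)) := by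
          rw [hN₁] at h2
          linear_combination h2
        exact mul_left_cancel₀ (pow_ne_zero 2 hl0) h5
      have h5 : (l : ℤ) ∣ N₁ := hP.dvd_of_dvd_pow (n := 2) (by
        rw [h4]
        exact dvd_mul_right _ _)
      obtain ⟨N₂, hN₂⟩ := h5
      have h6 : (l : ℤ) * N₂ ^ 2 = l * d * M₁ ^ 4 + a₁ * M₁ ^ 2 * e ^ 2 + B₁ * e ^ 4 := by
        rw [hN₂] at h4
        have h7 : (l : ℤ) * (l * N₂ ^ 2) =
            l * (l * d * M₁ ^ 4 + a₁ * M₁ ^ 2 * e ^ 2 + B₁ * e ^ 4) := by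
          linear_combination h4
        exact mul_left_cancel₀ hl0 h7
      have h7 : (l : ℤ) ∣ e ^ 2 * (a₁ * M₁ ^ 2 + B₁ * e ^ 2) :=
        ⟨N₂ ^ 2 - d * M₁ ^ 4, by linear_combination -h6⟩
      have h8 : (l : ℤ) ∣ a₁ * M₁ ^ 2 + B₁ * e ^ 2 := by
        rcases hP.dvd_or_dvd h7 with h8 | h8
        · exact absurd (hP.dvd_of_dvd_pow h8) hne
        · exact h8
      have hM₁' : ¬ (l : ℤ) ∣ M₁ := by
        intro h9
        have h10 : (l : ℤ) ∣ B₁ * e ^ 2 := by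
          have h11 : (l : ℤ) ∣ a₁ * M₁ ^ 2 := (dvd_pow h9 two_ne_zero).mul_left a₁
          exact (dvd_add_right h11).1 h8
        rcases hP.dvd_or_dvd h10 with h11 | h11
        · exact hnB h11
        · exact hne (hP.dvd_of_dvd_pow h11)
      have h9 : legendreSym l (-(a₁ * B₁)) = 1 := by
        refine leg_one l (u := M₁) (v := B₁ * e) ?_ hM₁' ?_
        · rw [dvd_neg]
          intro h10
          rcases hP.dvd_or_dvd h10 with h11 | h11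
          · exact hna h11
          · exact hnB h11
        · have h10 : -(a₁ * B₁) * M₁ ^ 2 - (B₁ * e) ^ 2 =
              (a₁ * M₁ ^ 2 + B₁ * e ^ 2) * (-B₁) := by ring
          rw [h10]
          exact h8.mul_right _
      have h10 : -(a₁ * b₁) = d * -(a₁ * B₁) := by
        rw [hb₁]
        ring
      rw [h10, legendreSym.mul, h9, mul_one]
    · left
      refine leg_one l (u := M ^ 2) (v := N) hd (fun h2 => hM (hP.dvd_of_dvd_pow h2)) ?_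
      rw [heq, ha, hB₁]
      exact ⟨-(a₁ * M ^ 2 * e ^ 2 + l ^ 2 * B₁ * e ^ 4), by ring⟩
  · intro d₁ hd
    have hnd : ¬ (l : ℤ) ∣ d₁ := by
      rintro ⟨d₂, rfl⟩
      have h1 := h.sqf (l : ℤ) ⟨d₂, by rw [hd]; ring⟩
      exact hP.not_isUnit h1
    have hld : (l : ℤ) ∣ d * M := ⟨d₁ * M, by rw [hd]; ring⟩
    have hne := hce hld
    have h0 : (l : ℤ) ^ 2 * b₁ = d₁ * B := by
      have h2 : (l : ℤ) * ((l : ℤ) ^ 2 * b₁) = l * (d₁ * B) := by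
        rw [hd, hb] at hbB
        linear_combination hbB
      exact mul_left_cancel₀ hl0 h2
    have h1 : (l : ℤ) ^ 2 ∣ B :=
      ((hcop d₁ hnd).pow_left).dvd_of_dvd_mul_left ⟨b₁, h0.symm⟩
    obtain ⟨B₁, hB₁⟩ := h1
    have hb₁ : b₁ = d₁ * B₁ := by
      have h2 : (l : ℤ) ^ 2 * b₁ = (l : ℤ) ^ 2 * (d₁ * B₁) := by
        rw [h0, hB₁]
        ring
      exact mul_left_cancel₀ (pow_ne_zero 2 hl0) h2
    have h2 : N ^ 2 = (l : ℤ) * (d₁ * M ^ 4 + a₁ * M ^ 2 * e ^ 2 + l * B₁ * e ^ 4) := by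
      rw [heq, ha, hB₁, hd]
      ring
    have h3 : (l : ℤ) ∣ N := hP.dvd_of_dvd_pow (n := 2) (by
      rw [h2]
      exact dvd_mul_right _ _)
    obtain ⟨N₁, hN₁⟩ := h3
    have h4 : (l : ℤ) * N₁ ^ 2 = d₁ * M ^ 4 + a₁ * M ^ 2 * e ^ 2 + l * B₁ * e ^ 4 := by
      rw [hN₁] at h2
      have h7 : (l : ℤ) * (l * N₁ ^ 2) =
          l * (d₁ * M ^ 4 + a₁ * M ^ 2 * e ^ 2 + l * B₁ * e ^ 4) := by
        linear_combination h2
      exact mul_left_cancel₀ hl0 h7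
    by_cases hM : (l : ℤ) ∣ M
    · left
      obtain ⟨M₁, hM₁⟩ := hM
      have h5 : N₁ ^ 2 = (l : ℤ) ^ 3 * d₁ * M₁ ^ 4 + l * a₁ * M₁ ^ 2 * e ^ 2 + B₁ * e ^ 4 := by
        rw [hM₁] at h4
        have h7 : (l : ℤ) * N₁ ^ 2 =
            l * ((l : ℤ) ^ 3 * d₁ * M₁ ^ 4 + l * a₁ * M₁ ^ 2 * e ^ 2 + B₁ * e ^ 4) := by
          linear_combination h4
        exact mul_left_cancel₀ hl0 h7
      refine leg_one l (u := e ^ 2) (v := d₁ * N₁) ?_ (fun h6 => hne (hP.dvd_of_dvd_pow h6)) ?_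
      · intro h6
        rcases hP.dvd_or_dvd h6 with h7 | h7
        · exact hnb h7
        · exact hnd h7
      · rw [mul_pow, h5, hb₁]
        exact ⟨-(d₁ ^ 2 * (l ^ 2 * d₁ * M₁ ^ 4 + a₁ * M₁ ^ 2 * e ^ 2)), by ring⟩
    · right
      have h5 : (l : ℤ) ∣ M ^ 2 * (d₁ * M ^ 2 + a₁ * e ^ 2) :=
        ⟨N₁ ^ 2 - B₁ * e ^ 4, by linear_combination -h4⟩
      have h6 : (l : ℤ) ∣ d₁ * M ^ 2 + a₁ * e ^ 2 := by
        rcases hP.dvd_or_dvd h5 with h8 | h8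
        · exact absurd (hP.dvd_of_dvd_pow h8) hM
        · exact h8
      refine leg_one l (u := e) (v := d₁ * M) ?_ hne ?_
      · rw [dvd_neg]
        intro h7
        rcases hP.dvd_or_dvd h7 with h8 | h8
        · exact hna h8
        · exact hnd h8
      · have h10 : -(a₁ * d₁) * e ^ 2 - (d₁ * M) ^ 2 =
            (d₁ * M ^ 2 + a₁ * e ^ 2) * (-d₁) := by ring
        rw [h10]
        exact h6.mul_right _

end Pool.Agent.G02.H18
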