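import Pool.Agent.G02.StmtsS

/-!
# Squad G02, row PM0: type 1, rank zero
-/

set_option autoImplicit false

namespace Pool.Agent.G02.H18

open Polynomial Pool.Agent.NJ Pool.Agent.GT.F

/-- If all rational points of `y² = x (x² + a x + b)` have `y = 0`, then `Two`. -/
theorem two_of_tr {W : WeierstrassCurve ℚ} {e a b : ℚ} (h : Rt1 W e a b) (ht : Tr a b) :
    Two W := by
  intro X Y hXY
  rw [WeierstrassCurve.Affine.equation_iff] at hXY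
  obtain ⟨h1, h2, h3⟩ := h
  rw [WeierstrassCurve.b₂] at h1
  rw [WeierstrassCurve.b₄] at h2
  rw [WeierstrassCurve.b₆] at h3
  have h4 := ht (X - e) ((2 * Y + W.a₁ * X + W.a₃) / 2) (by
    have h5 : (2 * Y + W.a₁ * X + W.a₃) ^ 2 =
        4 * (X - e) * ((X - e) ^ 2 + a * (X - e) + b) := by
      linear_combination 4 * hXY + X ^ 2 * h1 + 2 * X * h2 + h3
    rw [div_pow, h5]
    ring)
  rw [div_eq_zero_iff] at h4
  rcases h4 with h4 | h4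
  · exact h4
  · norm_num at h4

theorem pm0 (mob : MobStmt) (evd : EvdStmt) (dlt : DltStmt) (scl : SclStmt) : Pm0Stmt := by
  intro E e a b x y k m i j hR hT hinf
  obtain ⟨Z, hZ⟩ := evd a b x y k m i j hT
  obtain ⟨Z', hZ'⟩ := mob x y hT.lin Z
  have hch : ∀ τ : ℚ, ∃ t : ℚ, τ ∉ Z' → t ∉ Z ∧ y.eval t ≠ 0 ∧ x.eval t = τ * y.eval t := by
    intro τ
    by_cases h : τ ∈ Z'
    · exact ⟨0, fun h1 => absurd h h1⟩
    · obtain ⟨t, ht⟩ := hZ' τ h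
      exact ⟨t, fun _ => ht⟩
  choose f hf using hch
  have hS : ({τ : ℚ | Gd (k * τ ^ i * (τ - 4) ^ j) τ} \ (Z' : Set ℚ)).Infinite :=
    hinf.sdiff Z'.finite_toSet
  have hinj : Set.InjOn f ({τ : ℚ | Gd (k * τ ^ i * (τ - 4) ^ j) τ} \ (Z' : Set ℚ)) := by
    intro τ₁ h₁ τ₂ h₂ h12
    obtain ⟨_, hy1, hx1⟩ := hf τ₁ (fun h => h₁.2 (Finset.mem_coe.2 h))
    obtain ⟨_, hy2, hx2⟩ := hf τ₂ (fun h => h₂.2 (Finset.mem_coe.2 h))
    rw [h12] at hx1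
    exact mul_right_cancel₀ hy2 (hx1.symm.trans hx2)
  refine (hS.image hinj).mono ?_
  rintro t ⟨τ, ⟨hτ, hτZ⟩, rfl⟩
  obtain ⟨htZ, hy, hx⟩ := hf τ (fun h => hτZ (Finset.mem_coe.2 h))
  obtain ⟨hμ, _, ha, hb⟩ := hZ (f τ) htZ τ hx hy
  obtain ⟨hD, hns, hns4, htr⟩ := hτ
  have hRt : Rt1 (fib E (f τ)) (e.eval (f τ)) (a.eval (f τ)) (b.eval (f τ)) :=
    hR.map (evalRingHom (f τ))
  have hτ0 : τ ≠ 0 := fun h => hns ⟨0, by rw [h, mul_zero]⟩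
  have hτ4 : τ - 4 ≠ 0 := fun h => hns4 ⟨0, by rw [h, mul_zero, mul_zero]⟩
  have htr2 : Tr (a.eval (f τ)) (b.eval (f τ)) := by
    have h1 := (scl (k * τ ^ i * (τ - 4) ^ j * τ) ((k * τ ^ i * (τ - 4) ^ j) ^ 2 * τ)
      (ev (f τ) m) hμ).2 htr
    have e1 : a.eval (f τ) = k * τ ^ i * (τ - 4) ^ j * τ * ev (f τ) m ^ 2 := by
      rw [ha]
      ring
    have e2 : b.eval (f τ) = (k * τ ^ i * (τ - 4) ^ j) ^ 2 * τ * ev (f τ) m ^ 4 := by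
      rw [hb]
      ring
    rw [e1, e2]
    exact h1
  refine ⟨?_, two_of_tr hRt htr2⟩
  rw [dlt ℚ (fib E (f τ)) _ _ _ hRt]
  have e3 : (a.eval (f τ)) ^ 2 - 4 * b.eval (f τ) =
      (k * τ ^ i * (τ - 4) ^ j) ^ 2 * ev (f τ) m ^ 4 * (τ * (τ - 4)) := by
    rw [ha, hb]
    ring
  have e4 : b.eval (f τ) ≠ 0 := by
    rw [hb]
    refine mul_ne_zero (pow_ne_zero 2 ?_) hτ0
    have e5 : k * ev (f τ) m ^ 2 * τ ^ i * (τ - 4) ^ j =
        k * τ ^ i * (τ - 4) ^ j * ev (f τ) m ^ 2 := by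
      ring
    rw [e5]
    exact mul_ne_zero hD (pow_ne_zero 2 hμ)
  rw [e3]
  exact mul_ne_zero (mul_ne_zero (by norm_num) (pow_ne_zero 2 e4))
    (mul_ne_zero (mul_ne_zero (pow_ne_zero 2 hD) (pow_ne_zero 4 hμ)) (mul_ne_zero hτ0 hτ4))

end Pool.Agent.G02.H18
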